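import Pool.Agent.H257R3.SI.Stubs

/-! A8: representations of one query which are not mixed.  helper329. -/

namespace Pool.Agent.H329R3

open Pool.Agent.H257R3.SI

theorem a8_wt_nonneg {V : Type} [Fintype V] {ρ : ℝ} (h0 : 0 ≤ ρ) (h1 : ρ ≤ 1) (F : V → Bool) :
    0 ≤ wt ρ F := by
  unfold wt
  refine Finset.prod_nonneg fun v _ => ?_
  split_ifs <;> linarith

theorem a8_Pr_mono {V : Type} [Fintype V] [DecidableEq V] {ρ : ℝ} (h0 : 0 ≤ ρ) (h1 : ρ ≤ 1)
    {D E : Set (V → Bool)} (h : D ⊆ E) : Pr ρ D ≤ Pr ρ E := by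
  unfold Pr Ex
  refine Finset.sum_le_sum fun F _ => ?_
  refine mul_le_mul_of_nonneg_left ?_ (a8_wt_nonneg h0 h1 F)
  exact Set.indicator_le_indicator_of_subset h (fun _ => zero_le_one) F

theorem a8_Pr_nonneg {V : Type} [Fintype V] [DecidableEq V] {ρ : ℝ} (h0 : 0 ≤ ρ) (h1 : ρ ≤ 1)
    (D : Set (V → Bool)) : 0 ≤ Pr ρ D := by
  unfold Pr Ex
  refine Finset.sum_nonneg fun F _ => ?_
  exact mul_nonneg (a8_wt_nonneg h0 h1 F) (Set.indicator_nonneg (fun _ _ => zero_le_one) F)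

theorem a8_sum_wt {V : Type} [Fintype V] [DecidableEq V] (ρ : ℝ) : ∑ F : V → Bool, wt ρ F = 1 := by
  have h := Finset.prod_univ_sum (fun _ : V => (Finset.univ : Finset Bool))
    (fun _ b => if b = true then ρ else 1 - ρ)
  rw [Fintype.piFinset_univ] at h
  unfold wt
  rw [← h]
  simp

theorem a8_Pr_le_one {V : Type} [Fintype V] [DecidableEq V] {ρ : ℝ} (h0 : 0 ≤ ρ) (h1 : ρ ≤ 1)
    (D : Set (V → Bool)) : Pr ρ D ≤ 1 := by
  refine (a8_Pr_mono h0 h1 (Set.subset_univ D)).trans ?_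
  unfold Pr Ex
  simp only [Set.indicator_univ, mul_one]
  exact (a8_sum_wt ρ).le

theorem a8 (h6 : St_A6) (h7 : St_A7) : St_A8 := by
  classical
  intro V _ _ ρ ι U a b r hρ hρ1 hr hinj hU
  obtain ⟨P, hP⟩ : ∃ P : ι → ℝ, ∀ u, P u = Pr ρ (Dn r (a u) (b u)) := ⟨_, fun _ => rfl⟩
  have hP0 : ∀ u, 0 ≤ P u := fun u => by rw [hP]; exact a8_Pr_nonneg hρ.le hρ1 _
  have hP1 : ∀ u, P u ≤ 1 := fun u => by rw [hP]; exact a8_Pr_le_one hρ.le hρ1 _
  have hsum : ∑ u ∈ U, Pr ρ (Dn r (a u) (b u)) = ∑ u ∈ U.filter (fun u => 0 < P u), P u := by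
    rw [Finset.sum_filter_of_ne]
    · exact Finset.sum_congr rfl fun u _ => (hP u).symm
    · intro u _ hne
      exact lt_of_le_of_ne (hP0 u) (Ne.symm hne)
  rw [hsum]
  have h48 : 48 / ρ = 12 * (4 / ρ) := by ring
  rw [h48]
  refine h7 ι _ P (4 / ρ) (by positivity) ?_ ?_
  · intro u hu
    exact ⟨(Finset.mem_filter.1 hu).2, hP1 u⟩
  · intro n
    obtain ⟨U', hU'⟩ : ∃ U' : Finset ι, U' = {i ∈ U.filter (fun u => 0 < P u) |
      (1 / 2 : ℝ) ^ (n + 1) < P i ∧ P i ≤ (1 / 2 : ℝ) ^ n} := ⟨_, rfl⟩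
    rw [← hU']
    have hmem : ∀ u ∈ U', u ∈ U ∧ (1 / 2 : ℝ) ^ (n + 1) < P u ∧ P u ≤ (1 / 2 : ℝ) ^ n := by
      intro u hu
      rw [hU', Finset.mem_filter, Finset.mem_filter] at hu
      exact ⟨hu.1.1, hu.2⟩
    rcases U'.eq_empty_or_nonempty with he | hne
    · rw [he, Finset.card_empty]
      push_cast
      positivity
    · obtain ⟨u0, hu0, hmin⟩ := Finset.exists_min_image U' (fun u => r (pt (a u) (b u))) hne
      have hcard : (U'.image a).card = U'.card :=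
        Finset.card_image_of_injOn (hinj.mono fun u hu => (hmem u hu).1)
      have hsub : ∀ u ∈ U', Dn r (a u0) (b u0) ⊆ Dn r (a u) (b u) := by
        intro u hu F hF
        exact lt_of_lt_of_le hF (hmin u hu)
      have h6' := h6 V ρ (U'.image a) (Dn r (a u0) (b u0)) hρ.le hρ1 (by
        intro v hv
        obtain ⟨u, hu, rfl⟩ := Finset.mem_image.1 hv
        have hu1 := hmem u hu
        have hu2 := (hmem u0 hu0).2.1
        calc Pr ρ (Dn r (a u0) (b u0) ∩ {F | F (a u) = true})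
            ≤ Pr ρ (Dn r (a u) (b u) ∩ {F | F (a u) = true}) :=
              a8_Pr_mono hρ.le hρ1 (Set.inter_subset_inter_left _ (hsub u hu))
          _ ≤ ρ / 8 * Pr ρ (Dn r (a u) (b u)) := hU u hu1.1
          _ = ρ / 8 * P u := by rw [hP]
          _ ≤ ρ / 8 * (1 / 2 : ℝ) ^ n := by
              refine mul_le_mul_of_nonneg_left hu1.2.2 (by positivity)
          _ = ρ / 4 * (1 / 2 : ℝ) ^ (n + 1) := by ring
          _ ≤ ρ / 4 * P u0 := mul_le_mul_of_nonneg_left hu2.le (by positivity)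
          _ = _ := by rw [hP])
      rw [hcard, ← hP] at h6'
      have h8 : (1 / 2 : ℝ) ^ (n + 1) < Real.exp (-(ρ * (U'.card : ℝ) / 4)) :=
        lt_of_lt_of_le (hmem u0 hu0).2.1 h6'
      have h9 : (1 / 2 : ℝ) ^ (n + 1) = Real.exp (-(((n:ℝ) + 1) * Real.log 2)) := by
        rw [Real.exp_neg, mul_comm, Real.exp_mul, Real.exp_log (by norm_num), ← Real.inv_rpow (by norm_num)]
        rw [show ((n:ℝ) + 1) = ((n + 1 : ℕ) : ℝ) by push_cast; rfl, Real.rpow_natCast]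
        norm_num
      rw [h9, Real.exp_lt_exp] at h8
      have hlog : Real.log 2 < 1 := by
        have := Real.log_two_lt_d9
        linarith
      have hn : (0:ℝ) ≤ (n:ℝ) := Nat.cast_nonneg n
      have h10 : ρ * (U'.card : ℝ) ≤ 4 * ((n:ℝ) + 1) := by
        have h11 : ((n:ℝ) + 1) * Real.log 2 ≤ ((n:ℝ) + 1) * 1 :=
          mul_le_mul_of_nonneg_left hlog.le (by linarith)
        linarith
      have h12 : (U'.card : ℝ) ≤ 4 / ρ * ((n:ℝ) + 1) := by
        rw [div_mul_eq_mul_div, le_div_iff₀ hρ]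
        linarith
      refine h12.trans ?_
      refine mul_le_mul_of_nonneg_left ?_ (by positivity)
      nlinarith

end Pool.Agent.H329R3
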